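import Pool.Agent.Q216.LinSearch.Main

set_option autoImplicit false

/-!
The exact value of linear search on the line with turning cost `d`.
The definitions used in the statement are in `Pool/Agent/Q216/LinSearch/Defs.lean`.
-/

namespace Pool.Agent.Results.MP_5c5fd6_lc.ExactValue

open Pool.Agent.Q216.LinSearch

/-- For every turning cost `d > 0` the value is `V̄(d) = 5 + d + 2 √(2 (d + 2))`, which is
strictly less than `9 + 2 d`. -/
theorem result (d : ℝ) (hd : 0 < d) :
    Vbar d = ENNReal.ofReal (5 + d + 2 * √(2 * (d + 2))) ∧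
      Vbar d < ENNReal.ofReal (9 + 2 * d) := by
  have h1 := Vbar_eq d hd
  refine ⟨h1, ?_⟩
  rw [h1]
  exact (ENNReal.ofReal_lt_ofReal_iff (by linarith)).2 (value_lt d hd)

end Pool.Agent.Results.MP_5c5fd6_lc.ExactValue
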